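import Pool.Agent.W719.AR.Ana

/-!
# Volume conjecture for highly twisted arborescent links: the induction over the tree
-/

set_option autoImplicit false

namespace Pool.Agent.W247.AR

open Finset Filter Topology Metric
open Pool.Agent.W711.HT hiding XX
open Pool.Agent.W719.AR
open scoped Real

theorem shape_wt (p : PT) : p.shape.wt = p.wt := by
  induction p with
  | vx a z => rfl
  | br t c iht _ => simpa [PT.shape, Tr.wt, PT.wt] using iht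

theorem big_wt_le {M : ℝ} {D : ℕ} {t : Tr} (h : t.Big M D) : M ≤ |(t.wt : ℝ)| := by
  induction t with
  | vx a => exact h
  | br t c iht _ => exact iht h.1

theorem Rc_subD {ρ τ : ℝ} (hρ : 0 < ρ) (hτ : 0 < τ) {z : ℂ} (hz : z ∈ Rc ρ τ) :
    z ∈ Rc (3 * ρ) (3 * τ) := by
  obtain ⟨h1, h2⟩ := hz
  exact ⟨by linarith, by linarith⟩

/-- the induction over the tree -/
theorem maind_ind {ρ τ κ c : ℝ} {s dl : ℂ → ℂ → ℂ} (hK : KD ρ τ κ c s dl) {D : ℕ}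
    {ε₀ C M : ℝ}
    (h0 : GoodD ρ τ κ ε₀ D s 0 (fun _ _ => 1) (fun _ => 0))
    (hp : ∀ (t : ℕ) (X Y : ℕ → ℂ → ℂ) (F G : ℂ → ℂ), GoodD ρ τ κ ε₀ D s t X F →
      GoodD ρ τ κ ε₀ D s 1 Y G →
      GoodD ρ τ κ ε₀ D s (t + 1) (fun N ψ => X N ψ * Y N ψ) (fun ψ => F ψ + G ψ))
    (h1 : ∀ (t : ℕ) (X : ℕ → ℂ → ℂ) (F : ℂ → ℂ), t ≤ D → GoodD ρ τ κ ε₀ D s t X F →
      ∀ a : ℤ, M ≤ |(a : ℝ)| → ∃ (F' : ℂ → ℂ) (zs : ℂ → ℂ),
        GoodD ρ τ κ ε₀ D s 1 (stp a X) F' ∧ ‖F' 0 - F 0 - s 0 0‖ ≤ C / |(a : ℝ)| ∧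
        ∀ ψ' ∈ Rc (3 * ρ) (3 * τ), CPt C ρ τ a (zs ψ') ∧
          Complex.I * a * zs ψ' / (2 * π) + Complex.I + deriv F (zs ψ') +
            deriv (fun w => s w ψ') (zs ψ') = 0 ∧
          F' ψ' = qq a F (zs ψ') + s (zs ψ') ψ' ∧
          HasDerivAt F' (deriv (fun w => s (zs ψ') w) ψ') ψ')
    (t : Tr) : t.Big M D → ∃ F : ℂ → ℂ, GoodD ρ τ κ ε₀ D s t.nc (XX t) F ∧ t.nc ≤ D ∧
      ∀ ψ ∈ Rc (3 * ρ) (3 * τ), ∃ p : PT, p.shape = t ∧ p.rz = ψ ∧ p.Crt s C ρ τ ∧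
        F ψ = p.vl s ∧ HasDerivAt F (p.gs s) ψ := by
  induction t with
  | vx a =>
    intro _
    refine ⟨fun _ => 0, ?_, Nat.zero_le _, ?_⟩
    · simpa [XX, Tr.nc] using h0
    · intro ψ _
      exact ⟨.vx a ψ, rfl, rfl, trivial, rfl, by simpa [PT.gs] using hasDerivAt_const ψ (0 : ℂ)⟩
  | br t c iht ihc =>
    intro hB
    obtain ⟨hBt, hBc, hD⟩ := hB
    obtain ⟨F, hG, hn, hcr⟩ := iht hBt
    obtain ⟨Fc, hGc, hnc, hcrc⟩ := ihc hBc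
    obtain ⟨F', zs, hG', _, hcr'⟩ := h1 c.nc (XX c) Fc hnc hGc c.wt (big_wt_le hBc)
    refine ⟨fun ψ => F ψ + F' ψ, ?_, hD, ?_⟩
    · exact hp t.nc (XX t) (stp c.wt (XX c)) F F' hG hG'
    · intro ψ hψ
      obtain ⟨p, hp1, hp2, hp3, hp4, hp5⟩ := hcr ψ hψ
      obtain ⟨hz, heq, hval, hder⟩ := hcr' ψ hψ
      obtain ⟨q, hq1, hq2, hq3, hq4, hq5⟩ := hcrc (zs ψ) (Rc_subD hK.hρ.1 hK.hτ.1 hz.mem)
      have hw : q.wt = c.wt := by rw [← shape_wt q, hq1]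
      refine ⟨.br p q, ?_, hp2, ?_, ?_, ?_⟩
      · simp [PT.shape, hp1, hq1]
      · refine ⟨hp3, hq3, ?_, ?_⟩
        · rw [hw, hq2]
          exact hz
        · rw [hw, hq2, hp2, ← hq5.deriv]
          exact heq
      · simp only [PT.vl]
        rw [hw, hq2, hp2, hp4, hval, qq, hq4]
      · simp only [PT.gs]
        rw [hq2, hp2]
        exact hp5.add hder

theorem maind : S_KER → S_STEPD → S_PRD → S_MAIND := by
  rintro ⟨ρ, τ, κ, c, s, dl, hK⟩ hS hP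
  refine ⟨ρ, τ, κ, c, s, dl, hK, ?_⟩
  intro D hD
  obtain ⟨ε₀, C, M, hε, hC, hM, h1, h2⟩ := hS ρ τ κ c s dl hK D hD
  obtain ⟨h0, hp⟩ := hP ρ τ κ c s dl hK ε₀ D hε hD
  refine ⟨C, M, hC, hM, ?_⟩
  intro t hB ht
  obtain ⟨F, hG, hn, hcr⟩ := maind_ind hK h0 hp h1 t hB
  obtain ⟨z, hz, heq, _, hlim⟩ := h2 t.nc (XX t) F ht hn hG t.wt (big_wt_le hB)
  obtain ⟨p, hp1, hp2, hp3, hp4, hp5⟩ := hcr z (Rc_subD hK.hρ.1 hK.hτ.1 hz.mem)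
  have hw : p.wt = t.wt := by rw [← shape_wt p, hp1]
  refine ⟨p, hp1, hp3, ?_, ?_, ?_⟩
  · rw [hw, hp2]
    exact hz
  · rw [hw, hp2, ← hp5.deriv]
    exact heq
  · rw [hw, hp2, ← hp4]
    exact hlim

end Pool.Agent.W247.AR
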